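import Mathlib

set_option autoImplicit false

namespace Pool.Agent.H65M5

open SimpleGraph

theorem girth_five {n : ℕ} {G : SimpleGraph (Fin n)} (h : G.girth = 5) :
    5 ≤ n ∧ (∀ u v w, G.Adj u v → G.Adj v w → ¬ G.Adj u w) ∧
    (∀ a b c d, a ≠ c → b ≠ d → G.Adj a b → G.Adj b c → G.Adj c d → ¬ G.Adj d a) := by
  have hlen : ∀ (a : Fin n) (w : G.Walk a a), w.IsCycle → 5 ≤ w.length := by
    intro a w hw
    have h1 : G.girth ≤ w.length := hw.girth_le_length
    rwa [h] at h1
  have hac : ¬ G.IsAcyclic := by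
    intro hac
    rw [← SimpleGraph.girth_eq_zero] at hac
    omega
  refine ⟨?_, ?_, ?_⟩
  · obtain ⟨a, w, hw, hl⟩ := exists_girth_eq_length.2 hac
    have h1 := hw.support_nodup.length_le_card
    rw [List.length_tail, Walk.length_support, Fintype.card_fin, ← hl, h] at h1
    omega
  · intro u v w huv hvw huw
    have hc : (Walk.cons huv (Walk.cons hvw (Walk.cons huw.symm Walk.nil))).IsCycle := by
      have e1 := G.ne_of_adj huv
      have e2 := G.ne_of_adj hvw
      have e3 := G.ne_of_adj huw
      rw [Walk.cons_isCycle_iff]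
      simp [Walk.cons_isPath_iff, e1, e2, e3, e1.symm, e2.symm, e3.symm]
    have := hlen u _ hc
    simp at this
  · intro a b c d hac' hbd hab hbc hcd hda
    have hc : (Walk.cons hab (Walk.cons hbc (Walk.cons hcd (Walk.cons hda Walk.nil)))).IsCycle := by
      have e1 := G.ne_of_adj hab
      have e2 := G.ne_of_adj hbc
      have e3 := G.ne_of_adj hcd
      have e4 := G.ne_of_adj hda
      rw [Walk.cons_isCycle_iff]
      simp [Walk.cons_isPath_iff, e1, e2, e3, e4, e1.symm, e2.symm, e3.symm, e4.symm, hac', hbd,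
        hac'.symm, hbd.symm]
    have := hlen a _ hc
    simp at this

end Pool.Agent.H65M5
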